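import Mathlib
import Pool.Agent.H525.EX.Stm

/-!
# The value and the derivative of the contiguity relation at `Y = 1` (`ε = -1`)
-/

set_option autoImplicit false

namespace Pool.Agent.H685.EX

open Pool.Agent.H525.EX

/-- `f` has the sum `a` and the first moment `b`. -/
def Row (f : ℤ → ℝ) (a b : ℝ) : Prop :=
  HasSum f a ∧ HasSum (fun e : ℤ => (e : ℝ) * f e) b

section row

variable {f g : ℤ → ℝ} {a b c d : ℝ}

theorem Row.add (h : Row f a b) (h' : Row g c d) : Row (fun e => f e + g e) (a + c) (b + d) := by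
  refine ⟨h.1.add h'.1, ?_⟩
  have h1 := h.2.add h'.2
  refine h1.congr_fun ?_
  intro e
  ring

theorem Row.sub (h : Row f a b) (h' : Row g c d) : Row (fun e => f e - g e) (a - c) (b - d) := by
  refine ⟨h.1.sub h'.1, ?_⟩
  have h1 := h.2.sub h'.2
  refine h1.congr_fun ?_
  intro e
  ring

theorem Row.mul (h : Row f a b) (t : ℝ) : Row (fun e => t * f e) (t * a) (t * b) := by
  refine ⟨h.1.mul_left t, ?_⟩
  have h1 := h.2.mul_left t
  refine h1.congr_fun ?_
  intro e
  ring

theorem Row.neg (h : Row f a b) : Row (fun e => -f e) (-a) (-b) := by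
  refine ⟨h.1.neg, ?_⟩
  have h1 := h.2.neg
  refine h1.congr_fun ?_
  intro e
  ring

theorem Row.shift (h : Row f a b) (j : ℤ) : Row (fun e => f (e - j)) a (b + j * a) := by
  have h0 : HasSum (fun e : ℤ => f (e - j)) a := (Equiv.subRight j).hasSum_iff.2 h.1
  refine ⟨h0, ?_⟩
  have h1 : HasSum (fun e : ℤ => ((e - j : ℤ) : ℝ) * f (e - j)) b :=
    (Equiv.subRight j).hasSum_iff.2 h.2
  have h2 := h1.add (h0.mul_left (j : ℝ))
  refine h2.congr_fun ?_
  intro e
  push_cast
  ring

theorem Row.unique (h : Row f a b) (h' : Row g c d) (hfg : ∀ e, f e = g e) : a = c ∧ b = d := by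
  have e1 : f = g := funext hfg
  subst e1
  exact ⟨h.1.unique h'.1, h.2.unique h'.2⟩

end row

section sol

variable {s : ℕ} {P : ℝ} {u v : Arr}

theorem row_u (h : Sol s (-1) P u v) (n : ℤ) :
    Row (u n) (if n = 0 then 1 else 0) (∑ e ∈ Finset.Icc (-n) (3 * n + 1), (e : ℝ) * u n e) := by
  have h0 : ∀ e ∉ Finset.Icc (-n) (3 * n + 1), u n e = 0 := by
    intro e he
    rw [Finset.mem_Icc, not_and_or, not_le, not_le] at he
    rcases he with he | he
    · exact h.pre.us n e he
    · have h1 := h.pre.ua n e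
      rw [h.pre.us n (2 * n - e) (by omega)] at h1
      exact (mul_eq_zero.1 h1.symm).resolve_left (zpow_ne_zero _ (by norm_num))
  refine ⟨?_, hasSum_sum_of_ne_finset_zero fun e he => by rw [h0 e he, mul_zero]⟩
  rw [← h.N n]
  exact hasSum_sum_of_ne_finset_zero h0

theorem row_v (h : Sol s (-1) P u v) (n : ℤ) : Row (v n) (sm v n) (-dv v n) := by
  have h0 : ∀ e ∉ Finset.Icc (-n) (3 * n + 1), v n e = 0 := by
    intro e he
    rw [Finset.mem_Icc, not_and_or, not_le, not_le] at he
    rcases he with he | he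
    · exact h.pre.vs n e he
    · have h1 := h.pre.va n e
      rw [h.pre.vs n (2 * n + 1 - e) (by omega)] at h1
      exact (mul_eq_zero.1 (neg_eq_zero.1 h1.symm)).resolve_left (zpow_ne_zero _ (by norm_num))
  refine ⟨hasSum_sum_of_ne_finset_zero h0, ?_⟩
  unfold dv
  rw [neg_neg]
  exact hasSum_sum_of_ne_finset_zero fun e he => by rw [h0 e he, mul_zero]

end sol

theorem t_d2 : S_d2 := by
  intro s P u v u' v' h h' hR
  have key : ∀ n : ℤ, _ ∧ _ := fun n =>
    Row.unique
      ((((row_v h' (n - (2 * s + 2))).shift (2 * s + 2)).sub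
        (((row_v h' (n - (6 * s + 4))).shift (6 * s + 4)).mul (P ^ 2))).mul ((-1) ^ s * P))
      (((((row_u h n).sub ((row_u h n).shift 1)).add
        ((((row_u h (n - (4 * s + 2))).shift (4 * s + 2)).sub
          ((row_u h (n - (4 * s + 2))).shift (4 * s + 3))).mul (P ^ 2))).neg).add
        ((((((row_v h n).sub (((row_v h (n - (2 * s + 1))).shift (2 * s)).mul ((-1) ^ s * P))).add
          (((row_v h (n - (2 * s + 1))).shift (2 * s + 2)).mul ((-1) ^ s * P))).sub
          (((row_v h (n - (4 * s + 2))).shift (4 * s + 1)).mul (P ^ 2))).add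
          (((row_v h (n - (4 * s + 2))).shift (4 * s + 2)).mul (P ^ 2))).sub
          (((row_v h (n - (4 * s + 2))).shift (4 * s + 3)).mul (P ^ 2))))
      (fun e => hR n e)
  constructor
  · intro n
    have h1 := (key n).1
    linear_combination -h1
  · intro hv hv' n
    have h1 := (key n).2
    rw [hv' (n - (2 * s + 2)), hv' (n - (6 * s + 4)), hv (n - (2 * s + 1)),
      hv (n - (4 * s + 2))] at h1
    have h2 : (if n = 4 * (s : ℤ) + 2 then P ^ 2 else 0) =
        P ^ 2 * (if n - (4 * (s : ℤ) + 2) = 0 then (1 : ℝ) else 0) := by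
      rw [mul_ite, mul_one, mul_zero]
      exact if_congr sub_eq_zero.symm rfl rfl
    rw [h2]
    push_cast at h1 ⊢
    linear_combination h1

end Pool.Agent.H685.EX
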